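import Mathlib

open Filter Topology

namespace Pool.Agent.Results.MP_ffcf77_al.DriftCounterexample

/-- `p_n(w)` for the lazy random walk on `G` with respect to `S`: the fraction of all
`d`-tuples of sequences of `n` steps in `S ∪ {1}` for which the words `R_n^{(i)} = s_1 ⋯ s_n`
satisfy `w(R_n^{(1)}, …, R_n^{(d)}) = 1` (all step sequences are equally likely). -/
noncomputable def lawProb {G : Type} [Group G] (S : Set G) {d : ℕ} (w : FreeGroup (Fin d))
    (n : ℕ) : ℝ :=
  (Nat.card {om : Fin d → Fin n → ↥(S ∪ {1}) //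
      FreeGroup.lift (fun i => (List.ofFn (fun j => (om i j : G))).prod) w = 1} : ℝ) /
    (Nat.card (Fin d → Fin n → ↥(S ∪ {1})) : ℝ)

/-! ### Second moment -/

theorem sum_sq {K : Type} [Fintype K] (ζ : K → ℝ) (h0 : ∑ k, ζ k = 0) (n : ℕ) :
    ∑ om : Fin n → K, (∑ i, ζ (om i)) ^ 2 * (Fintype.card K : ℝ) =
      n * (∑ k, ζ k ^ 2) * (Fintype.card K : ℝ) ^ n := by
  induction n with
  | zero => simp
  | succ n ih =>
    have e := Fintype.sum_equiv (Fin.consEquiv (fun _ : Fin (n + 1) => K)).symm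
      (fun om : Fin (n + 1) → K => (∑ i, ζ (om i)) ^ 2 * (Fintype.card K : ℝ))
      (fun p : K × (Fin n → K) => (ζ p.1 + ∑ i, ζ (p.2 i)) ^ 2 * (Fintype.card K : ℝ))
      (by intro om; simp [Fin.sum_univ_succ, Fin.consEquiv, Fin.tail])
    rw [e, Fintype.sum_prod_type]
    have h1 : ∀ k : K, ∑ om : Fin n → K, (ζ k + ∑ i, ζ (om i)) ^ 2 * (Fintype.card K : ℝ) =
        ζ k ^ 2 * (Fintype.card K : ℝ) ^ (n + 1) +
          2 * ζ k * (∑ om : Fin n → K, (∑ i, ζ (om i)) * (Fintype.card K : ℝ)) +
          ∑ om : Fin n → K, (∑ i, ζ (om i)) ^ 2 * (Fintype.card K : ℝ) := by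
      intro k
      rw [Finset.mul_sum]
      have : ζ k ^ 2 * (Fintype.card K : ℝ) ^ (n + 1) =
          ∑ _om : Fin n → K, ζ k ^ 2 * (Fintype.card K : ℝ) := by
        simp [Finset.sum_const, Fintype.card_pi, pow_succ]
        ring
      rw [this, ← Finset.sum_add_distrib, ← Finset.sum_add_distrib]
      apply Finset.sum_congr rfl
      intro om _
      ring
    rw [Finset.sum_congr rfl (fun k _ => h1 k)]
    rw [Finset.sum_add_distrib, Finset.sum_add_distrib, ← Finset.sum_mul, ← Finset.sum_mul,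
      ← Finset.mul_sum, h0, ih]
    simp
    ring

/-- Chebyshev's inequality in counting form, for the first of two independent sequences. -/
theorem chebyshev {K : Type} [Fintype K] (ζ : K → ℝ) (h0 : ∑ k, ζ k = 0) (n : ℕ) (δ : ℝ)
    (P : (Fin 2 → Fin n → K) → Prop) (hP : ∀ om, P om → δ ^ 2 ≤ (∑ i, ζ (om 0 i)) ^ 2) :
    (Nat.card {om // P om} : ℝ) * δ ^ 2 * (Fintype.card K : ℝ) ≤
      n * (∑ k, ζ k ^ 2) * (Nat.card (Fin 2 → Fin n → K) : ℝ) := by
  classical
  have hc : (Nat.card {om // P om} : ℝ) * δ ^ 2 =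
      ∑ om : Fin 2 → Fin n → K, if P om then δ ^ 2 else 0 := by
    rw [Nat.card_eq_fintype_card, Fintype.card_subtype, ← Finset.sum_filter, Finset.sum_const]
    simp
  rw [hc]
  have h1 : (∑ om : Fin 2 → Fin n → K, if P om then δ ^ 2 else 0) ≤
      ∑ om : Fin 2 → Fin n → K, (∑ i, ζ (om 0 i)) ^ 2 := by
    apply Finset.sum_le_sum
    intro om _
    split_ifs with h
    · exact hP om h
    · positivity
  have h2 := Fintype.sum_equiv (finTwoArrowEquiv (Fin n → K))
      (fun om : Fin 2 → Fin n → K => (∑ i, ζ (om 0 i)) ^ 2)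
      (fun p : (Fin n → K) × (Fin n → K) => (∑ i, ζ (p.1 i)) ^ 2) (by intro om; simp)
  rw [h2, Fintype.sum_prod_type] at h1
  calc (∑ om : Fin 2 → Fin n → K, if P om then δ ^ 2 else 0) * (Fintype.card K : ℝ)
      ≤ (∑ x : Fin n → K, ∑ _y : Fin n → K, (∑ i, ζ (x i)) ^ 2) * (Fintype.card K : ℝ) :=
        mul_le_mul_of_nonneg_right h1 (Nat.cast_nonneg _)
    _ = (∑ x : Fin n → K, (∑ i, ζ (x i)) ^ 2 * (Fintype.card K : ℝ)) *
          (Fintype.card K : ℝ) ^ n := by
        simp only [Finset.sum_const, Finset.card_univ, Fintype.card_pi, Finset.prod_const,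
          Fintype.card_fin, nsmul_eq_mul]
        rw [← Finset.mul_sum, ← Finset.sum_mul]
        push_cast
        ring
    _ = n * (∑ k, ζ k ^ 2) * (Nat.card (Fin 2 → Fin n → K) : ℝ) := by
        rw [sum_sq ζ h0 n]
        simp only [Nat.card_eq_fintype_card, Fintype.card_pi, Finset.prod_const,
          Finset.card_univ, Fintype.card_fin]
        push_cast
        ring

/-! ### The group -/

/-- The unrestricted wreath product `Perm (Fin 3) ≀ ℤ`: a lamp configuration with values in
the symmetric group on three letters, and a position. -/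
@[ext] structure W where
  /-- lamp configuration -/
  lamp : ℤ → Equiv.Perm (Fin 3)
  /-- position -/
  pos : ℤ

namespace W

instance : Mul W := ⟨fun g h => ⟨fun i => g.lamp i * h.lamp (i - g.pos), g.pos + h.pos⟩⟩
instance : One W := ⟨⟨fun _ => 1, 0⟩⟩
instance : Inv W := ⟨fun g => ⟨fun i => (g.lamp (i + g.pos))⁻¹, -g.pos⟩⟩

@[simp] theorem mul_lamp (g h : W) (i : ℤ) :
    (g * h).lamp i = g.lamp i * h.lamp (i - g.pos) := rfl
@[simp] theorem mul_pos (g h : W) : (g * h).pos = g.pos + h.pos := rfl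
@[simp] theorem one_lamp (i : ℤ) : (1 : W).lamp i = 1 := rfl
@[simp] theorem one_pos : (1 : W).pos = 0 := rfl
@[simp] theorem inv_lamp (g : W) (i : ℤ) : (g⁻¹).lamp i = (g.lamp (i + g.pos))⁻¹ := rfl
@[simp] theorem inv_pos (g : W) : (g⁻¹).pos = -g.pos := rfl

instance : Group W where
  mul_assoc g h k := by
    ext1
    · funext i
      simp only [mul_lamp, mul_pos, mul_assoc, sub_sub]
    · simp [add_assoc]
  one_mul g := by ext1 <;> simp [funext_iff]
  mul_one g := by ext1 <;> simp [funext_iff]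
  inv_mul_cancel g := by
    ext1
    · funext i
      simp
    · simp

/-- Moving by `k`. -/
def t (k : ℤ) : W := ⟨fun _ => 1, k⟩
/-- Multiplying the lamp at `0` by `h`. -/
def sw (h : Equiv.Perm (Fin 3)) : W := ⟨fun i => if i = 0 then h else 1, 0⟩

/-- The six steps of the lazy walk. -/
def step : Fin 6 → W :=
  ![1, t 1, t 2, t (-1), sw (Equiv.swap 0 1), sw (Equiv.swap 1 2)]

/-- The generators. -/
def gens : Set W := {t 1, t 2, t (-1), sw (Equiv.swap 0 1), sw (Equiv.swap 1 2)}

end W

open W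

/-- The group: generated by `t, t², t⁻¹` and two involutions at lamp `0`. -/
abbrev G : Type := ↥(Subgroup.closure W.gens)

/-- The generating set of `G`, as a subset of `G`. -/
def S : Set G := {g | (g : W) ∈ W.gens}

/-- The commutator `a b a⁻¹ b⁻¹`. -/
def comm {H : Type} [Group H] (a b : H) : H := a * b * a⁻¹ * b⁻¹

/-- The word `[[x, y], xᵏ [x, y] x⁻ᵏ]` in the free group on `x` and `y`. -/
def word (k : ℕ) : FreeGroup (Fin 2) :=
  comm (comm (FreeGroup.of 0) (FreeGroup.of 1))
    (FreeGroup.of 0 ^ k * comm (FreeGroup.of 0) (FreeGroup.of 1) * (FreeGroup.of 0 ^ k)⁻¹)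

/-- The same word evaluated at two elements. -/
def wv {H : Type} [Group H] (k : ℕ) (x y : H) : H :=
  comm (comm x y) (x ^ k * comm x y * (x ^ k)⁻¹)

theorem lift_word {H : Type} [Group H] (k : ℕ) (f : Fin 2 → H) :
    FreeGroup.lift f (word k) = wv k (f 0) (f 1) := by
  simp [word, wv, comm]

theorem wv_coe (k : ℕ) (x y : G) : ((wv k x y : G) : W) = wv k (x : W) (y : W) := by
  simp [wv, comm]

/-! ### Supports -/

/-- Position bounded by `m` and lamps trivial outside `[-m, m]`. -/
def Bdd (g : W) (m : ℤ) : Prop := |g.pos| ≤ m ∧ ∀ i : ℤ, m < |i| → g.lamp i = 1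

theorem Bdd.mul {g h : W} {m k : ℤ} (hg : Bdd g m) (hh : Bdd h k) (hk : 0 ≤ k) :
    Bdd (g * h) (m + k) := by
  refine ⟨(abs_add_le _ _).trans (add_le_add hg.1 hh.1), fun i hi => ?_⟩
  rw [mul_lamp, hg.2 i (by linarith), hh.2 _ ?_, one_mul]
  have h1 := abs_sub_abs_le_abs_sub i g.pos
  have h2 := hg.1
  linarith

theorem Bdd.inv {g : W} {m : ℤ} (hg : Bdd g m) (hm : 0 ≤ m) : Bdd g⁻¹ (2 * m) := by
  refine ⟨by rw [inv_pos, abs_neg]; linarith [hg.1], fun i hi => ?_⟩
  rw [inv_lamp, hg.2 _ ?_, inv_one]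
  have h1 := abs_sub_abs_le_abs_sub i (-g.pos)
  rw [abs_neg, sub_neg_eq_add] at h1
  have h2 := hg.1
  linarith

theorem Bdd.one (m : ℤ) (hm : 0 ≤ m) : Bdd 1 m := ⟨by simpa using hm, fun i _ => rfl⟩

theorem Bdd.list {l : List W} (hl : ∀ s ∈ l, Bdd s 2) : Bdd l.prod (2 * l.length) := by
  induction l with
  | nil => exact Bdd.one _ (by simp)
  | cons s l ih =>
    have h1 := hl s (by simp)
    have h2 := ih (fun s hs => hl s (by simp [hs]))
    have h3 := h1.mul h2 (by positivity)
    rw [List.prod_cons, List.length_cons]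
    have : (2 : ℤ) * ((l.length + 1 : ℕ) : ℤ) = 2 + 2 * l.length := by push_cast; ring
    rw [this]
    exact h3

theorem comm_bdd {x y : W} {m : ℤ} (hx : Bdd x m) (hy : Bdd y m) (hm : 0 ≤ m) :
    Bdd (comm x y) (6 * m) := by
  have := ((hx.mul hy hm).mul (hx.inv hm) (by linarith)).mul (hy.inv hm) (by linarith)
  have h2 : m + m + 2 * m + 2 * m = 6 * m := by ring
  rw [h2] at this
  exact this

theorem comm_pos (x y : W) : (comm x y).pos = 0 := by
  simp [comm]

/-- If `x` has moved far, then `[x, y]` and its conjugate have disjoint supports. -/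
theorem wv_eq_one {x y : W} {m : ℤ} {k : ℕ} (hx : Bdd x m) (hy : Bdd y m) (hm : 0 ≤ m)
    (hpos : 12 * m < k * x.pos) : wv k x y = 1 := by
  have hpow : (x ^ k).pos = k * x.pos := by
    induction k with
    | zero => simp
    | succ k ih => 
      have : ∀ k : ℕ, (x ^ k).pos = k * x.pos := by
        intro k
        induction k with
        | zero => simp
        | succ k ih => rw [pow_succ, mul_pos, ih]; push_cast; ring
      exact this _
  set c := comm x y with hc
  have hcb : Bdd c (6 * m) := comm_bdd hx hy hm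
  have hcp : c.pos = 0 := comm_pos x y
  set X := x ^ k with hX
  have hconj : ∀ i, (X * c * X⁻¹).lamp i = X.lamp i * c.lamp (i - X.pos) * (X.lamp i)⁻¹ := by
    intro i
    simp [hcp]
  have hconjp : (X * c * X⁻¹).pos = 0 := by simp [hcp]
  have hwv : wv k x y = comm c (X * c * X⁻¹) := rfl
  rw [hwv]
  ext1
  · funext i
    simp only [comm, mul_lamp, mul_pos, inv_lamp, inv_pos, hcp, one_lamp, sub_zero, add_zero,
      neg_zero, add_neg_cancel, sub_add_cancel]
    by_cases hi : 6 * m < |i|
    · rw [hcb.2 i hi]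
      simp
    · have h1 : c.lamp (i - X.pos) = 1 := by
        apply hcb.2
        have h2 := abs_sub_abs_le_abs_sub X.pos i
        rw [abs_sub_comm] at h2
        have h3 : X.pos ≤ |X.pos| := le_abs_self _
        push Not at hi
        linarith
      rw [h1]
      simp
  · simp [comm, hcp]

/-! ### The steps -/

theorem step_mem (i : Fin 6) : step i ∈ gens ∪ {1} := by
  fin_cases i <;> simp [step, gens]

theorem step_inj : Function.Injective step := by
  have h : Function.Injective fun i => ((step i).pos, (step i).lamp 0) := by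
    have : (fun i => ((step i).pos, (step i).lamp 0)) =
        ![((0 : ℤ), (1 : Equiv.Perm (Fin 3))), (1, 1), (2, 1), (-1, 1), (0, Equiv.swap 0 1),
          (0, Equiv.swap 1 2)] := by
      funext i
      fin_cases i <;> simp [step, t, sw]
    rw [this]
    decide
  intro i j hij
  exact h (by simp only [hij])

/-- The steps as elements of `G`. -/
def stepG (i : Fin 6) : ↥(S ∪ {1}) :=
  ⟨⟨step i, by
    rcases step_mem i with h | h
    · exact Subgroup.subset_closure h
    · rw [Set.mem_singleton_iff.1 h]; exact one_mem _⟩, by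
    rcases step_mem i with h | h
    · left; exact h
    · right; exact Subtype.ext (Set.mem_singleton_iff.1 h)⟩

theorem stepG_bij : Function.Bijective stepG := by
  constructor
  · intro i j hij
    apply step_inj
    have := congrArg (fun g : ↥(S ∪ {1}) => ((g : G) : W)) hij
    exact this
  · rintro ⟨⟨g, hg⟩, h | h⟩
    · change g ∈ gens at h
      simp only [gens, Set.mem_insert_iff, Set.mem_singleton_iff] at h
      rcases h with rfl | rfl | rfl | rfl | rfl
      · exact ⟨1, rfl⟩
      · exact ⟨2, rfl⟩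
      · exact ⟨3, rfl⟩
      · exact ⟨4, rfl⟩
      · exact ⟨5, rfl⟩
    · have : g = 1 := congrArg Subtype.val (Set.mem_singleton_iff.1 h)
      subst this
      exact ⟨0, rfl⟩

noncomputable instance : Fintype ↥(S ∪ {1}) := Fintype.ofBijective stepG stepG_bij

theorem card_S : Fintype.card ↥(S ∪ {1}) = 6 := by
  rw [Fintype.card_congr (Equiv.ofBijective stepG stepG_bij).symm]
  simp

theorem sum_S (f : ↥(S ∪ {1}) → ℝ) : ∑ k, f k = ∑ i, f (stepG i) :=
  ((Equiv.ofBijective stepG stepG_bij).sum_comp f).symm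

theorem bdd_step (k : ↥(S ∪ {1})) : Bdd ((k : G) : W) 2 := by
  obtain ⟨i, rfl⟩ := stepG_bij.2 k
  change Bdd (step i) 2
  have hsw : ∀ h, Bdd (sw h) 2 := by
    intro h
    refine ⟨by simp [sw], fun i hi => ?_⟩
    have : i ≠ 0 := by rintro rfl; simp at hi
    simp [sw, this]
  have ht : ∀ k : ℤ, |k| ≤ 2 → Bdd (t k) 2 := fun k hk => ⟨hk, fun _ _ => rfl⟩
  fin_cases i
  · exact Bdd.one _ (by norm_num)
  · exact ht _ (by norm_num)
  · exact ht _ (by norm_num)
  · exact ht _ (by norm_num)
  · exact hsw _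
  · exact hsw _

/-- The position of a step. -/
def stepPos (k : ↥(S ∪ {1})) : ℤ := ((k : G) : W).pos

theorem pos_prod {n : ℕ} (om : Fin n → ↥(S ∪ {1})) :
    (((List.ofFn (fun j => (om j : G))).prod : G) : W).pos = ∑ j, stepPos (om j) := by
  induction n with
  | zero => simp
  | succ n ih =>
    rw [List.ofFn_succ, List.prod_cons, Fin.sum_univ_succ, ← ih]
    rfl

theorem bdd_prod {n : ℕ} (om : Fin n → ↥(S ∪ {1})) :
    Bdd ((((List.ofFn (fun j => (om j : G))).prod : G) : W)) (2 * n) := by
  have : ((((List.ofFn (fun j => (om j : G))).prod : G) : W)) =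
      (List.ofFn (fun j => ((om j : G) : W))).prod := by
    have := map_list_prod (Subgroup.closure W.gens).subtype (List.ofFn (fun j => (om j : G)))
    rw [List.map_ofFn] at this
    exact this
  rw [this]
  have h := Bdd.list (l := List.ofFn (fun j => ((om j : G) : W))) (by
    intro s hs
    rw [List.mem_ofFn] at hs
    obtain ⟨j, rfl⟩ := hs
    exact bdd_step (om j))
  rw [List.length_ofFn] at h
  exact h

theorem sum_pos : ∑ k, ((stepPos k : ℝ) - 1 / 3) = 0 := by
  rw [sum_S]
  simp [Fin.sum_univ_succ, stepPos, stepG, step, t, sw]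
  norm_num

theorem sum_pos_sq : ∑ k, ((stepPos k : ℝ) - 1 / 3) ^ 2 = 16 / 3 := by
  rw [sum_S]
  simp [Fin.sum_univ_succ, stepPos, stepG, step, t, sw]
  norm_num

/-! ### The probabilities -/

theorem lawProb_le_one (n : ℕ) : lawProb S (word 144) n ≤ 1 := by
  unfold lawProb
  apply div_le_one_of_le₀
  · exact_mod_cast Nat.card_le_card_of_injective _ Subtype.val_injective
  · positivity

theorem card_compl {A : Type} [Finite A] (Q : A → Prop) :
    (Nat.card {a // ¬ Q a} : ℝ) + Nat.card {a // Q a} = Nat.card A := by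
  classical
  rw [← Nat.card_congr (Equiv.sumCompl Q), Nat.card_sum]
  push_cast
  ring

theorem lawProb_ge (n : ℕ) (hn : 0 < n) : 1 - 32 / (n : ℝ) ≤ lawProb S (word 144) n := by
  classical
  have hn' : (0 : ℝ) < n := by exact_mod_cast hn
  set P : (Fin 2 → Fin n → ↥(S ∪ {1})) → Prop := fun om =>
    ¬ FreeGroup.lift (fun i => (List.ofFn (fun j => (om i j : G))).prod) (word 144) = 1 with hP
  have hbad := chebyshev (K := ↥(S ∪ {1})) (fun k => (stepPos k : ℝ) - 1 / 3) sum_pos n
    (n / 6) P (by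
      intro om hom
      have hle : (∑ j, stepPos (om 0 j) : ℤ) * 6 ≤ n := by
        by_contra hlt
        push Not at hlt
        apply hom
        rw [lift_word]
        apply Subtype.ext
        rw [wv_coe]
        apply wv_eq_one (bdd_prod _) (bdd_prod _) (by positivity)
        rw [pos_prod]
        push_cast
        linarith
      have hle' : (∑ j, (stepPos (om 0 j) : ℝ)) * 6 ≤ n := by exact_mod_cast hle
      rw [Finset.sum_sub_distrib]
      simp only [Finset.sum_const, Finset.card_univ, Fintype.card_fin, nsmul_eq_mul]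
      nlinarith)
  rw [sum_pos_sq, card_S] at hbad
  have htot : (Nat.card {om // P om} : ℝ) +
      Nat.card {om : Fin 2 → Fin n → ↥(S ∪ {1}) //
        FreeGroup.lift (fun i => (List.ofFn (fun j => (om i j : G))).prod) (word 144) = 1} =
      Nat.card (Fin 2 → Fin n → ↥(S ∪ {1})) := card_compl _
  have hpos : (0 : ℝ) < Nat.card (Fin 2 → Fin n → ↥(S ∪ {1})) := by
    rw [Nat.card_eq_fintype_card]
    have : Nonempty ↥(S ∪ {1}) := ⟨stepG 0⟩
    exact_mod_cast Fintype.card_pos
  unfold lawProb
  rw [le_div_iff₀ hpos]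
  have h1 : (Nat.card {om // P om} : ℝ) * n ≤
      32 * (Nat.card (Fin 2 → Fin n → ↥(S ∪ {1})) : ℝ) := by
    have h2 : (Nat.card {om // P om} : ℝ) * (n / 6) ^ 2 * ((6 : ℕ) : ℝ) =
        ((Nat.card {om // P om} : ℝ) * n) * (n / 6) := by push_cast; ring
    rw [h2] at hbad
    have h3 : (n : ℝ) * (16 / 3) * (Nat.card (Fin 2 → Fin n → ↥(S ∪ {1})) : ℝ) =
        (32 * (Nat.card (Fin 2 → Fin n → ↥(S ∪ {1})) : ℝ)) * (n / 6) := by ring
    rw [h3] at hbad
    exact le_of_mul_le_mul_right hbad (by positivity)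
  have h4 : (Nat.card {om // P om} : ℝ) ≤
      32 / n * (Nat.card (Fin 2 → Fin n → ↥(S ∪ {1})) : ℝ) := by
    rw [div_mul_eq_mul_div, le_div_iff₀ hn']
    exact h1
  linarith

/-- `S` generates `G`, even as a monoid. -/
theorem closure_S : Submonoid.closure S = ⊤ := by
  have hmem : ∀ g ∈ gens, ∃ hg : g ∈ Subgroup.closure gens,
      (⟨g, hg⟩ : G) ∈ Submonoid.closure S ∧ (⟨g, hg⟩ : G)⁻¹ ∈ Submonoid.closure S := by
    intro g hg
    refine ⟨Subgroup.subset_closure hg, Submonoid.subset_closure hg, ?_⟩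
    have hsub : ∀ g (hg : g ∈ gens),
        (⟨g, Subgroup.subset_closure hg⟩ : G) ∈ Submonoid.closure S :=
      fun g hg => Submonoid.subset_closure hg
    have g1 : t 1 ∈ gens := by simp [gens]
    have g2 : t 2 ∈ gens := by simp [gens]
    have g3 : t (-1) ∈ gens := by simp [gens]
    have hswap : ∀ (a b : Fin 3), sw (Equiv.swap a b) * sw (Equiv.swap a b) = 1 := by
      intro a b
      ext1
      · funext i
        by_cases hi : i = 0 <;> simp [sw, hi]
      · simp [sw]
    simp only [gens, Set.mem_insert_iff, Set.mem_singleton_iff] at hg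
    rcases hg with rfl | rfl | rfl | rfl | rfl
    · convert hsub _ g3 using 1
      rw [inv_eq_iff_mul_eq_one]
      apply Subtype.ext
      ext1
      · funext i; simp [t]
      · simp [t]
    · convert mul_mem (hsub _ g3) (hsub _ g3) using 1
      rw [inv_eq_iff_mul_eq_one]
      apply Subtype.ext
      ext1
      · funext i; simp [t]
      · simp [t]
    · convert hsub _ g1 using 1
      rw [inv_eq_iff_mul_eq_one]
      apply Subtype.ext
      ext1
      · funext i; simp [t]
      · simp [t]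
    · convert hsub (sw (Equiv.swap 0 1)) (by simp [gens]) using 1
      rw [inv_eq_iff_mul_eq_one]
      exact Subtype.ext (hswap 0 1)
    · convert hsub (sw (Equiv.swap 1 2)) (by simp [gens]) using 1
      rw [inv_eq_iff_mul_eq_one]
      exact Subtype.ext (hswap 1 2)
  have key : ∀ g (hg : g ∈ Subgroup.closure gens),
      (⟨g, hg⟩ : G) ∈ Submonoid.closure S ∧ (⟨g, hg⟩ : G)⁻¹ ∈ Submonoid.closure S := by
    intro g hg
    induction hg using Subgroup.closure_induction with
    | mem x hx => exact (hmem x hx).2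
    | one =>
      refine ⟨one_mem _, ?_⟩
      have h3 : (⟨1, one_mem _⟩ : G)⁻¹ = 1 := Subtype.ext inv_one
      rw [h3]
      exact one_mem _
    | mul x y hx hy h1 h2 =>
      refine ⟨mul_mem h1.1 h2.1, ?_⟩
      have h3 := mul_mem h2.2 h1.2
      rw [← mul_inv_rev] at h3
      exact h3
    | inv x hx h1 =>
      refine ⟨h1.2, ?_⟩
      have h3 := h1.1
      rw [← inv_inv (⟨x, hx⟩ : G)] at h3
      exact h3
  rw [eq_top_iff]
  rintro ⟨g, hg⟩ -
  exact (key g hg).1

theorem finite_S : S.Finite := by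
  have : Set.Finite gens := by
    unfold gens
    exact Set.toFinite _
  exact this.preimage Subtype.val_injective.injOn

theorem t_pow (k : ℕ) : (t 1) ^ k = t k := by
  induction k with
  | zero =>
    ext1
    · funext i
      simp [t]
    · simp [t]
  | succ k ih =>
    rw [pow_succ, ih]
    ext1
    · funext i
      simp [t]
    · simp [t]

/-- The element `(0 1)` at `0` times `(1 2)` at `k`. -/
def yy (k : ℕ) : W := sw (Equiv.swap 0 1) * (t k * sw (Equiv.swap 1 2) * (t k)⁻¹)

theorem wv_ne (k : ℕ) (hk : 2 ≤ k) : wv k (t 1) (yy k) ≠ 1 := by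
  have hw : wv k (t 1) (yy k) = comm (comm (t 1) (yy k)) (t k * comm (t 1) (yy k) * (t k)⁻¹) := by
    rw [← t_pow]
    rfl
  rw [hw]
  intro h
  have h3 := congrArg (fun g : W => g.lamp k) h
  have e0 : k ≠ 0 := by omega
  have e2 : (k : ℤ) - 1 ≠ 0 := by omega
  have e4 : (-1 : ℤ) ≠ 0 := by omega
  have e7 : (-1 : ℤ) - k ≠ 0 := by omega
  have e8 : - (k : ℤ) ≠ 0 := by omega
  simp [comm, yy, sw, t, e0, e2, e4, e7, e8] at h3
  revert h3
  decide

theorem word_not_law (k : ℕ) (hk : 2 ≤ k) : ∃ g : Fin 2 → G, FreeGroup.lift g (word k) ≠ 1 := by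
  have m1 : t 1 ∈ Subgroup.closure gens := Subgroup.subset_closure (by simp [gens])
  have ma : sw (Equiv.swap 0 1) ∈ Subgroup.closure gens :=
    Subgroup.subset_closure (by simp [gens])
  have mb : sw (Equiv.swap 1 2) ∈ Subgroup.closure gens :=
    Subgroup.subset_closure (by simp [gens])
  have mk : t k ∈ Subgroup.closure gens := by
    rw [← t_pow]
    exact pow_mem m1 _
  have my : yy k ∈ Subgroup.closure gens := mul_mem ma (mul_mem (mul_mem mk mb) (inv_mem mk))
  refine ⟨![⟨t 1, m1⟩, ⟨yy k, my⟩], ?_⟩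
  rw [lift_word]
  intro h
  have h2 := congrArg (Subtype.val) h
  rw [wv_coe] at h2
  exact wv_ne k hk h2

theorem two_le : 2 ≤ 144 := by norm_num

attribute [irreducible] word

theorem result : ∃ (G : Type) (_ : Group G) (S : Set G) (w : FreeGroup (Fin 2)),
    S.Finite ∧ Submonoid.closure S = ⊤ ∧ Tendsto (lawProb S w) atTop (𝓝 1) ∧
      ∃ g : Fin 2 → G, FreeGroup.lift g w ≠ 1 := by
  refine ⟨G, Subgroup.toGroup _, S, word 144, finite_S, closure_S, ?_, word_not_law 144 two_le⟩
  have h1 : Tendsto (fun n : ℕ => 1 - 32 / (n : ℝ)) atTop (𝓝 1) := by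
    have := (tendsto_const_div_atTop_nhds_zero_nat (32 : ℝ)).const_sub 1
    simpa using this
  refine tendsto_of_tendsto_of_tendsto_of_le_of_le' h1 tendsto_const_nhds ?_ ?_
  · filter_upwards [eventually_gt_atTop 0] with n hn
    exact lawProb_ge n hn
  · exact Eventually.of_forall lawProb_le_one

end Pool.Agent.Results.MP_ffcf77_al.DriftCounterexample
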